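import Pool.Agent.H947R2.TP.Stubs

open MeasureTheory Filter Topology Set
open scoped ENNReal

namespace H947TP

/-- L7: the bound for all subgroups. -/
theorem L7 (h1 : St_L1) (h2 : St_L2) (h4 : St_L4) (h5 : St_L5) (h6 : St_L6) : St_L7 := by
  intro D n b δ G G' hδ hδ1 hD hn hG' hGG hSS
  by_contra hcon
  push Not at hcon
  have hex : ∀ m : ℕ, ∃ e : ℝ, ∃ Λ : AddSubgroup (Fin D → ℝ), 0 < e ∧ e < 1 / ((m : ℝ) + 1) ∧
      (∀ v ∈ Λ, v ≠ 0 → Sep b δ e v) ∧
      ∀ F : Set (Fin D → ℝ), MeasurableSet F → Bornology.IsBounded F →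
        (∀ v ∈ Λ, v ≠ 0 → Disjoint F (tr v F)) → volume F < ENNReal.ofReal (1 - G' * e) := by
    intro m
    obtain ⟨e, he0, he1, Λ, hS, hF⟩ := hcon (1 / ((m : ℝ) + 1)) (by positivity)
    exact ⟨e, Λ, he0, he1, hS, hF⟩
  choose e Λ he0 he1 hS hF using hex
  set U : Ultrafilter ℕ := Filter.hyperfilter ℕ with hU
  have hUle : (U : Filter ℕ) ≤ atTop := Nat.hyperfilter_le_atTop
  have hlim : Tendsto e U (𝓝 0) := by
    have h : Tendsto e atTop (𝓝 0) := squeeze_zero (fun m => (he0 m).le) (fun m => (he1 m).le)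
      tendsto_one_div_add_atTop_nhds_zero_nat
    exact h.mono_left hUle
  have hcov := h4 D n b δ G' e Λ U hδ hδ1 hD hn hG' he0 hlim hS hF
  have hsep := h2 D n b δ e Λ U hδ hδ1 hD hn hlim hS
  have htile := h5 D (Lim U Λ) hsep hcov
  have hG := hSS (Lim U Λ) htile
  obtain ⟨m, hm⟩ := (h6 D n b δ (G' - G) e Λ U hδ hδ1 hD hn (by linarith) he0 hlim hS htile).exists
  have hem1 : e m < 1 := by
    refine lt_of_lt_of_le (he1 m) ?_
    rw [div_le_one (by positivity)]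
    have : (0 : ℝ) ≤ (m : ℝ) := by positivity
    linarith
  obtain ⟨-, F, hFm, hFQ, -, hFd, hFv⟩ := h1 D n b δ (e m) (Λ m) hδ hδ1 (he0 m) hem1 hD hn (hS m)
    _ rfl
  have hFb : Bornology.IsBounded F := by
    refine (Metric.isBounded_Icc (0 : Fin D → ℝ) 1).subset (hFQ.trans ?_)
    intro x hx
    exact ⟨fun i => (hx i).1, fun i => (hx i).2.le⟩
  have h7 := hF m F hFm hFb hFd
  have h8 : ENNReal.ofReal (1 - G' * e m) ≤ volume F := by
    refine le_trans (ENNReal.ofReal_le_ofReal ?_) hFv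
    have h9 : e m * (SS b δ (Lim U Λ) + (G' - G)) ≤ e m * G' :=
      mul_le_mul_of_nonneg_left (by linarith) (he0 m).le
    linarith
  exact absurd h7 (not_lt.mpr h8)

end H947TP
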